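import Pool.Agent.Lib.MP_f25cb6_lc.X.Final

/-!
# Interval scheduling with eligibility sets is equivalent to chained multicoloured clique

Parameterized by the number of machines, interval scheduling with machine eligibility sets is
equivalent, under polynomial-time reductions that change the parameter linearly, to the chained
multicoloured clique problem, both for unit weights with at most two eligible machines per job and
for weights bounded by a fixed power of the input length; chained multicoloured clique reduces to
the problem with arbitrary binary weights.  Hence each of the restricted problems is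
fixed-parameter tractable if and only if chained multicoloured clique is.
-/

namespace Pool.Agent.Results.MP_f25cb6_lc.ChainedCliqueEquivalence

open Pool.Agent.Lib.MP_f25cb6_lc

theorem result :
    (PolyReduces (fun k => 4 * k) CMC SCHEDTwo ∧ PolyReduces (fun m => m + 1) SCHEDTwo CMC) ∧
    (∀ c : ℕ, PolyReduces (fun k => 4 * k) CMC (SCHEDPoly c) ∧
      PolyReduces (fun m => m + 1) (SCHEDPoly c) CMC) ∧
    PolyReduces (fun k => 4 * k) CMC SCHED ∧
    (FPT SCHEDTwo ↔ FPT CMC) ∧ (∀ c : ℕ, FPT (SCHEDPoly c) ↔ FPT CMC) ∧
    (FPT SCHED → FPT CMC) :=
  ⟨⟨X.cmc_le_schedTwo, X.schedTwo_le_cmc⟩, fun c => ⟨X.cmc_le_schedPoly c, X.schedPoly_le_cmc c⟩,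
    X.cmc_le_sched, X.fpt_schedTwo_iff, X.fpt_schedPoly_iff, X.fpt_cmc_of_sched⟩

end Pool.Agent.Results.MP_f25cb6_lc.ChainedCliqueEquivalence
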