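import Mathlib
import Pool.Agent.Lib.MP_f25cb6_lc.Eq.Final

/-!
# Interval scheduling with equal jobs and two eligible machines per job

Interval scheduling with eligible machine sets is `W[1]`-hard for the number of machines as
parameter even if all weights are one, all processing times are equal and each job has at most two
eligible machines; the reduction from the clique problem preserves the parameter: `k` machines for
a clique of size `k`.
-/

set_option autoImplicit false

namespace Pool.Agent.Results.MP_f25cb6_lc.EqualJobsTwoMachines

open Pool.Agent.Lib.MP_f25cb6_lc Pool.Agent.Lib.MP_634427_lc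

/-- **A parameter-preserving reduction from Clique to interval scheduling with unit weights, equal
processing times and at most two eligible machines per job.** -/
theorem result :
    (∃ (J : Word × ℕ → List Job) (b q : Word × ℕ → ℕ) (c : ℕ), PT J ∧ PT b ∧
      ∀ w k, Valid k (J (w, k)) ∧
        (∀ t ∈ J (w, k), weight t = 1 ∧ (eligible t).length ≤ 2 ∧
          due t = release t + q (w, k) ∧ due t ≤ (w.length + k + 2) ^ c) ∧
        ((w, k) ∈ CLIQUE ↔
          ∃ σ, Feasible k (J (w, k)) σ ∧ b (w, k) ≤ value (J (w, k)) σ)) ∧
    W1Hard SCHEDEqual ∧ (FPT SCHEDEqual → FPT CLIQUE) :=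
  ⟨Eq.reduction, Eq.w1Hard, Eq.fpt_clique⟩

end Pool.Agent.Results.MP_f25cb6_lc.EqualJobsTwoMachines
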