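import Pool.Agent.Lib.MP_f25cb6_lc.Lp.Fin

/-!
# No small linear or dynamic programs for interval scheduling with eligible machines

An unconditional lower bound for two models: linear programs with free equations and additional
variables, and circuits over the operations maximum and sum (pure dynamic programs). Both need
`n ^ (m / 4)` inequalities or gates for some systems of `n` jobs on `m` machines in which every job
has at most two eligible machines, already for weights at most `n ^ 2`.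
-/

set_option autoImplicit false

namespace Pool.Agent.Results.MP_f25cb6_lc.NoSmallPrograms

open Pool.Agent.Lib.MP_f25cb6_lc.Lp

theorem result :
    (∀ m : ℕ, 1 ≤ m → ∃ n₀ : ℕ, ∀ n, n₀ ≤ n → ∃ I : Jobs m (Fin n),
      (∀ j, (I.elig j).card ≤ 2) ∧
      (∀ (r : ℕ) (Q : LP (Fin n) r), Q.Solves I (n ^ 2) → n ^ m ≤ r ^ 4) ∧
      ∀ (s : ℕ) (C : Circuit (Fin n) s), C.Solves I (n ^ 2) → n ^ m ≤ s ^ 4) ∧
    (¬ ∃ (f : ℕ → ℕ) (c : ℕ), ∀ (m n : ℕ) (I : Jobs m (Fin n)), 1 ≤ m →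
      (∀ j, (I.elig j).card ≤ 2) →
        ∃ r, r ≤ f m * (n + 1) ^ c ∧ ∃ Q : LP (Fin n) r, Q.Solves I (n ^ 2)) ∧
    ¬ ∃ (f : ℕ → ℕ) (c : ℕ), ∀ (m n : ℕ) (I : Jobs m (Fin n)), 1 ≤ m →
      (∀ j, (I.elig j).card ≤ 2) →
        ∃ s, s ≤ f m * (n + 1) ^ c ∧ ∃ C : Circuit (Fin n) s, C.Solves I (n ^ 2) :=
  ⟨main, no_lp, no_circuit⟩

end Pool.Agent.Results.MP_f25cb6_lc.NoSmallPrograms
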