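import Pool.Agent.Lib.MP_f25cb6_lc.X.Final

/-!
# Interval scheduling with eligibility sets is hard for weighted satisfiability of formulas

Weighted satisfiability of arbitrary Boolean formulas, the complete problem of the class `W[SAT]`,
reduces in polynomial time to interval scheduling of unit-weight jobs with at most two eligible
machines each on `4 (k + 1)` machines.
-/

namespace Pool.Agent.Results.MP_f25cb6_lc.WSatHard

open Pool.Agent.Lib.MP_f25cb6_lc Pool.Agent.Lib.MP_634427_lc

theorem result :
    PolyReduces (fun k => 4 * (k + 1)) WSAT SCHEDTwo ∧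
    (∀ Q : Set (Word × ℕ), FptReduces Q WSAT → FptReduces Q SCHEDTwo) ∧
    (FPT SCHEDTwo → FPT WSAT) ∧ (FPT SCHED → FPT WSAT) :=
  ⟨X.wsat_le_schedTwo, X.schedTwo_wsat_hard,
    fun h => X.fpt_of_polyReduces X.computable_add1 X.wsat_le_cmc (X.fpt_schedTwo_iff.1 h),
    fun h => X.fpt_of_polyReduces X.computable_add1 X.wsat_le_cmc (X.fpt_cmc_of_sched h)⟩

end Pool.Agent.Results.MP_f25cb6_lc.WSatHard
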